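import Mathlib

/-!
# A cycle of prime period three of `x_{n+1} = A / x_n ^ 2 + 1 / x_{n-k} ^ p`

With `k = 1`, `p = log (5/2) / log 2` (so `2 ^ p = 5/2`), `b = (3/5) ^ (1/(p+1))`, `a = 2 b` and
`A = (4/3) b ^ 3` the sequence `x_n = b` for `3 ∣ n` and `x_n = a` otherwise is a solution.
-/

namespace Pool.Agent.Results.MP_7b4a8e_an.PeriodThree

/-- There are real numbers `A, p > 0`, an integer `k ≥ 0` and a positive solution
`(x_n)_{n ≥ -k}` of `x_{n+1} = A / x_n ^ 2 + 1 / x_{n-k} ^ p` (`n = 0, 1, 2, …`) which is periodic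
with period `3` on `n ≥ -k` and with no smaller positive period, so its prime period is `3`. -/
theorem result :
    ∃ (A p : ℝ) (k : ℕ) (x : ℤ → ℝ), 0 < A ∧ 0 < p ∧
      (∀ n : ℤ, -(k : ℤ) ≤ n → 0 < x n) ∧
      (∀ n : ℤ, 0 ≤ n → x (n + 1) = A / (x n) ^ 2 + 1 / (x (n - k)) ^ p) ∧
      (∀ n : ℤ, -(k : ℤ) ≤ n → x (n + 3) = x n) ∧
      (∀ N : ℕ, 1 ≤ N → N < 3 → ¬ ∀ n : ℤ, -(k : ℤ) ≤ n → x (n + N) = x n) := by
  have hl2 : 0 < Real.log 2 := Real.log_pos (by norm_num)
  have hl5 : 0 < Real.log (5 / 2) := Real.log_pos (by norm_num)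
  set p : ℝ := Real.log (5 / 2) / Real.log 2 with hp
  have hp0 : 0 < p := div_pos hl5 hl2
  have h2p : (2 : ℝ) ^ p = 5 / 2 := by
    rw [Real.rpow_def_of_pos (by norm_num), hp, mul_div_cancel₀ _ hl2.ne',
      Real.exp_log (by norm_num)]
  set b : ℝ := (3 / 5 : ℝ) ^ (1 / (p + 1)) with hb
  have hb0 : 0 < b := Real.rpow_pos_of_pos (by norm_num) _
  have hbp1 : b ^ (p + 1) = 3 / 5 := by
    rw [hb, ← Real.rpow_mul (by norm_num)]
    rw [one_div, inv_mul_cancel₀ (by positivity), Real.rpow_one]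
  have hbp : b ^ p * b = 3 / 5 := by
    rw [← hbp1, Real.rpow_add hb0, Real.rpow_one]
  have hbpp : 0 < b ^ p := Real.rpow_pos_of_pos hb0 _
  have h1 : 1 / b ^ p = 5 / 3 * b := by
    rw [div_eq_iff hbpp.ne']
    linarith [hbp, mul_comm (b ^ p) b]
  have h2 : 1 / (2 * b) ^ p = 2 / 3 * b := by
    rw [Real.mul_rpow (by norm_num) hb0.le, h2p, ← div_div, div_eq_iff hbpp.ne']
    linarith [hbp, mul_comm (b ^ p) b]
  refine ⟨4 / 3 * b ^ 3, p, 1, fun n => if n % 3 = 0 then b else 2 * b, by positivity, hp0,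
    ?_, ?_, ?_, ?_⟩
  · intro n _
    dsimp only
    split_ifs <;> positivity
  · intro n _
    have hn : n % 3 = 0 ∨ n % 3 = 1 ∨ n % 3 = 2 := by omega
    have hb' : b ≠ 0 := hb0.ne'
    rcases hn with hn | hn | hn
    · have e1 : ¬ (n + 1) % 3 = 0 := by omega
      have e2 : ¬ (n - ((1 : ℕ) : ℤ)) % 3 = 0 := by push_cast; omega
      simp only [hn, e1, e2, if_true, if_false]
      rw [h2]
      field_simp
      ring
    · have e0 : ¬ n % 3 = 0 := by omega
      have e1 : ¬ (n + 1) % 3 = 0 := by omega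
      have e2 : (n - ((1 : ℕ) : ℤ)) % 3 = 0 := by push_cast; omega
      simp only [e0, e1, e2, if_true, if_false]
      rw [h1]
      field_simp
      ring
    · have e0 : ¬ n % 3 = 0 := by omega
      have e1 : (n + 1) % 3 = 0 := by omega
      have e2 : ¬ (n - ((1 : ℕ) : ℤ)) % 3 = 0 := by push_cast; omega
      simp only [e0, e1, e2, if_true, if_false]
      rw [h2]
      field_simp
      ring
  · intro n _
    have e : (n + 3) % 3 = n % 3 := by omega
    simp only [e]
  · intro N h1N h3N h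
    have hN : N = 1 ∨ N = 2 := by omega
    rcases hN with rfl | rfl
    · have := h 0 (by norm_num)
      norm_num at this
      linarith
    · have := h 0 (by norm_num)
      norm_num at this
      linarith

end Pool.Agent.Results.MP_7b4a8e_an.PeriodThree
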